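import Pool.Agent.Run7.h932.DS.Stm

set_option autoImplicit false

/-!
# Project DS, piece NICE1: pairings without short closed trails give simple graphs of large girth
-/

namespace Run7.h574.DS

open Finset Classical Run7.h932.DS

variable {n m : ℕ}

/-- the ends of the edge `j`, unordered -/
noncomputable def ed (v : HE m → Fin n) (π : Equiv.Perm (HE m)) (j : Fin m) : Sym2 (Fin n) :=
  s(v (π (j, false)), v (π (j, true)))

lemma ed_eq (v : HE m → Fin n) (π : Equiv.Perm (HE m)) (j : Fin m) (b : Bool) :
    ed v π j = s(v (π (j, b)), v (π (j, !b))) := by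
  cases b
  · rfl
  · simp only [Bool.not_true]
    exact Sym2.eq_swap

lemma gr_adj (v : HE m → Fin n) (π : Equiv.Perm (HE m))
    (hl : ∀ j, v (π (j, false)) ≠ v (π (j, true))) (x y : Fin n) :
    (gr v π).Adj x y ↔ ∃ j b, x = v (π (j, b)) ∧ y = v (π (j, !b)) := by
  unfold gr
  rw [SimpleGraph.fromRel_adj]
  constructor
  · rintro ⟨-, ⟨j, h1, h2⟩ | ⟨j, h1, h2⟩⟩
    · exact ⟨j, false, h1, h2⟩
    · exact ⟨j, true, h2, h1⟩
  · rintro ⟨j, b, h1, h2⟩
    cases b
    · refine ⟨?_, Or.inl ⟨j, h1, h2⟩⟩
      rw [h1, h2]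
      exact hl j
    · refine ⟨?_, Or.inr ⟨j, h2, h1⟩⟩
      rw [h1, h2]
      exact (hl j).symm

/-- the degrees of the simple graph, if there are no loops and no parallel edges -/
lemma deg_gr (v : HE m → Fin n) (π : Equiv.Perm (HE m))
    (hl : ∀ j, v (π (j, false)) ≠ v (π (j, true)))
    (hi : Function.Injective fun j => s(v (π (j, false)), v (π (j, true)))) :
    Deg (gr v π) (cnt v) := by
  intro x
  unfold cnt
  symm
  refine Finset.card_bij (fun h _ => v (π ((π.symm h).1, !(π.symm h).2))) ?_ ?_ ?_
  · intro h hh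
    simp only [mem_filter, mem_univ, true_and] at hh ⊢
    rw [gr_adj v π hl]
    refine ⟨(π.symm h).1, (π.symm h).2, ?_, rfl⟩
    rw [Prod.mk.eta, Equiv.apply_symm_apply, hh]
  · intro h hh h' hh' he
    simp only [mem_filter, mem_univ, true_and] at hh hh'
    obtain ⟨p, rfl⟩ := π.surjective h
    obtain ⟨p', rfl⟩ := π.surjective h'
    obtain ⟨j, b⟩ := p
    obtain ⟨j', b'⟩ := p'
    simp only [Equiv.symm_apply_apply] at he
    have e1 : ed v π j = ed v π j' := by
      rw [ed_eq v π j b, ed_eq v π j' b', hh, hh', he]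
    have e2 : j = j' := hi e1
    subst e2
    have e3 : b = b' := by
      by_contra hne
      have e4 : b' = !b := by
        cases b <;> cases b' <;> simp_all
      subst e4
      have h5 : v (π (j, b)) = v (π (j, !b)) := by rw [hh, hh']
      cases b
      · exact hl j h5
      · exact hl j h5.symm
    subst e3
    rfl
  · intro y hy
    simp only [mem_filter, mem_univ, true_and] at hy
    rw [gr_adj v π hl] at hy
    obtain ⟨j, b, h1, h2⟩ := hy
    refine ⟨π (j, b), ?_, ?_⟩
    · simp only [mem_filter, mem_univ, true_and]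
      exact h1.symm
    · rw [Equiv.symm_apply_apply]
      exact h2.symm

/-- a walk of the graph is a walk of the pairing -/
lemma of_walk (v : HE m → Fin n) (π : Equiv.Perm (HE m))
    (hl : ∀ j, v (π (j, false)) ≠ v (π (j, true))) {x y : Fin n} (p : (gr v π).Walk x y) :
    ∃ w : List (HE m), w.length = p.length ∧ IsWalk v π w x y ∧
      w.map (fun q => ed v π q.1) = p.edges := by
  induction p with
  | nil => exact ⟨[], rfl, rfl, rfl⟩
  | @cons a b c h p ih =>
    obtain ⟨w, h1, h2, h3⟩ := ih
    obtain ⟨j, t, ha, hb⟩ := (gr_adj v π hl a b).1 h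
    refine ⟨(j, t) :: w, by simp [h1], ⟨ha.symm, ?_⟩, ?_⟩
    · rw [← hb]
      exact h2
    · rw [List.map_cons, SimpleGraph.Walk.edges_cons, h3, ed_eq v π j t, ← ha, ← hb]

/-- a walk of the pairing is a walk of every graph which contains its edges -/
lemma to_walk (v : HE m → Fin n) (π : Equiv.Perm (HE m)) (G : SimpleGraph (Fin n))
    (hG : ∀ j, G.Adj (v (π (j, false))) (v (π (j, true)))) (w : List (HE m)) (x y : Fin n)
    (hw : IsWalk v π w x y) :
    ∃ p : G.Walk x y, p.length = w.length ∧ p.edges = w.map (fun q => ed v π q.1) := by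
  induction w generalizing x with
  | nil =>
    obtain rfl : x = y := hw
    exact ⟨SimpleGraph.Walk.nil, rfl, rfl⟩
  | cons q w ih =>
    obtain ⟨h1, h2⟩ := hw
    obtain ⟨p, h3, h4⟩ := ih _ h2
    obtain ⟨j, b⟩ := q
    have hadj : G.Adj x (v (π (j, !b))) := by
      rw [← h1]
      cases b
      · exact hG j
      · exact (hG j).symm
    refine ⟨SimpleGraph.Walk.cons hadj p, by simp [h3], ?_⟩
    rw [SimpleGraph.Walk.edges_cons, h4, List.map_cons, ed_eq v π j b, h1]

lemma loopless (v : HE m → Fin n) (π : Equiv.Perm (HE m)) (L : ℕ) (h : Nice v π L) (j : Fin m) :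
    v (π (j, false)) ≠ v (π (j, true)) := by
  intro he
  exact h j ⟨[], Nat.zero_le _, List.nodup_nil, by simp, he⟩

lemma inj_of_nice (v : HE m → Fin n) (π : Equiv.Perm (HE m)) (L : ℕ) (hL : 1 ≤ L)
    (h : Nice v π L) : Function.Injective fun j => s(v (π (j, false)), v (π (j, true))) := by
  intro i j hij
  by_contra hne
  have hij' : s(v (π (i, false)), v (π (i, true))) = s(v (π (j, false)), v (π (j, true))) := hij
  rw [Sym2.eq_iff] at hij'
  rcases hij' with ⟨h1, h2⟩ | ⟨h1, h2⟩
  · refine h i ⟨[(j, false)], by simpa using hL, by simp, ?_, ⟨h1.symm, ?_⟩⟩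
    · intro p hp
      rw [List.mem_singleton] at hp
      subst hp
      simpa using fun hh : j = i => hne hh.symm
    · exact h2.symm
  · refine h i ⟨[(j, true)], by simpa using hL, by simp, ?_, ⟨h1.symm, ?_⟩⟩
    · intro p hp
      rw [List.mem_singleton] at hp
      subst hp
      simpa using fun hh : j = i => hne hh.symm
    · exact h2.symm

lemma trail_of_walk (v : HE m → Fin n) (π : Equiv.Perm (HE m)) (L : ℕ)
    (hl : ∀ j, v (π (j, false)) ≠ v (π (j, true))) {x y : Fin n} (p : (gr v π).Walk x y)
    (hp : p.edges.Nodup) (hlen : p.length ≤ L) (j : Fin m) (hj : ed v π j ∉ p.edges) :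
    Trail v π L {j} x y := by
  obtain ⟨w, h1, h2, h3⟩ := of_walk v π hl p
  refine ⟨w, by omega, ?_, ?_, h2⟩
  · rw [← h3] at hp
    have e1 : w.map (fun q => ed v π q.1) = (w.map Prod.fst).map (ed v π) := by
      rw [List.map_map]; rfl
    rw [e1] at hp
    exact hp.of_map
  · intro q hq hqj
    rw [Set.mem_singleton_iff] at hqj
    apply hj
    rw [← h3, List.mem_map]
    exact ⟨q, hq, by rw [hqj]⟩

theorem t_NICE1 : S_NICE1 := by
  intro n m L v π hL hN
  have hl : ∀ j, v (π (j, false)) ≠ v (π (j, true)) := fun j => loopless v π L hN j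
  have hi := inj_of_nice v π L hL hN
  refine ⟨⟨fun j => ?_, hi⟩, deg_gr v π hl hi, ?_, ?_⟩
  · rw [gr_adj v π hl]
    exact ⟨j, false, rfl, rfl⟩
  · intro x c hc
    by_contra hlen
    push Not at hlen
    cases c with
    | nil => exact hc.ne_nil rfl
    | @cons _ y _ h p =>
      rw [SimpleGraph.Walk.cons_isCycle_iff] at hc
      obtain ⟨hp, hxy⟩ := hc
      rw [SimpleGraph.Walk.length_cons] at hlen
      obtain ⟨j, b, h1, h2⟩ := (gr_adj v π hl x y).1 h
      have hj : ed v π j = s(x, y) := by rw [ed_eq v π j b, h1, h2]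
      have hnd := hp.isTrail.edges_nodup
      cases b
      · -- `x` is the first end of `j`
        apply hN j
        unfold Bad
        rw [← h1]
        have h2' : y = v (π (j, true)) := h2
        rw [← h2']
        refine trail_of_walk v π L hl p.reverse ?_ ?_ j ?_
        · rw [SimpleGraph.Walk.edges_reverse]
          exact List.nodup_reverse.2 hnd
        · rw [SimpleGraph.Walk.length_reverse]
          omega
        · rw [SimpleGraph.Walk.edges_reverse, List.mem_reverse, hj]
          exact hxy
      · apply hN j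
        unfold Bad
        rw [← h1]
        have h2' : y = v (π (j, false)) := h2
        rw [← h2']
        refine trail_of_walk v π L hl p hnd (by omega) j ?_
        rw [hj]
        exact hxy
  · have hb : Function.Bijective (fun j : Fin m =>
        (⟨ed v π j, by
          rw [ed_eq v π j false, SimpleGraph.mem_edgeSet, gr_adj v π hl]
          exact ⟨j, false, rfl, rfl⟩⟩ : (gr v π).edgeSet)) := by
      constructor
      · intro i j hij
        exact hi (Subtype.ext_iff.1 hij)
      · rintro ⟨e, he⟩
        induction e using Sym2.ind with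
        | _ x y =>
          rw [SimpleGraph.mem_edgeSet, gr_adj v π hl] at he
          obtain ⟨j, b, h1, h2⟩ := he
          refine ⟨j, ?_⟩
          apply Subtype.ext
          change ed v π j = s(x, y)
          rw [ed_eq v π j b, h1, h2]
    rw [← Nat.card_congr (Equiv.ofBijective _ hb), Nat.card_eq_fintype_card, Fintype.card_fin]

end Run7.h574.DS
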