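import Pool.Agent.Run7.h574.DS.NICE1

set_option autoImplicit false

/-!
# Project DS, piece NICE2: representations of graphs of large girth have no short closed trails
-/

namespace Run7.h574.DS

open Finset Classical Run7.h932.DS

theorem t_NICE2 : S_NICE2 := by
  intro n m L v π G hR hD hG
  obtain ⟨hadj, hi⟩ := hR
  have hl : ∀ j, v (π (j, false)) ≠ v (π (j, true)) := fun j => (hadj j).ne
  constructor
  · intro j hB
    obtain ⟨w, h1, -, h3, h4⟩ := hB
    obtain ⟨p, h5, h6⟩ := to_walk v π G hadj w _ _ h4
    have hnot : ed v π j ∉ p.edges := by
      rw [h6, List.mem_map]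
      rintro ⟨q, hq, hq'⟩
      exact h3 q hq (hi hq')
    have hc : (SimpleGraph.Walk.cons (hadj j).symm p.bypass).IsCycle := by
      rw [SimpleGraph.Walk.cons_isCycle_iff]
      refine ⟨p.bypass_isPath, fun h => hnot ?_⟩
      have h7 := p.edges_bypass_subset_edges h
      have h8 : s(v (π (j, true)), v (π (j, false))) = ed v π j := Sym2.eq_swap
      rwa [h8] at h7
    have h9 := hG _ _ hc
    rw [SimpleGraph.Walk.length_cons] at h9
    have h10 := p.length_bypass_le_length
    omega
  · -- the two graphs have the same degrees, and one is contained in the other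
    have hle : ∀ x y, (gr v π).Adj x y → G.Adj x y := by
      intro x y hxy
      obtain ⟨j, b, rfl, rfl⟩ := (gr_adj v π hl x y).1 hxy
      cases b
      · exact hadj j
      · exact (hadj j).symm
    have hd := deg_gr v π hl hi
    ext x y
    refine ⟨hle x y, fun hxy => ?_⟩
    have hsub : (univ.filter fun y => (gr v π).Adj x y) ⊆ univ.filter fun y => G.Adj x y := by
      intro z hz
      simp only [mem_filter, mem_univ, true_and] at hz ⊢
      exact hle x z hz
    have hcard : (univ.filter fun y => G.Adj x y).card ≤
        (univ.filter fun y => (gr v π).Adj x y).card := by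
      have e1 := hD x
      have e2 := hd x
      rw [e1, e2]
    have heq := Finset.eq_of_subset_of_card_le hsub hcard
    have hy : y ∈ univ.filter fun y => G.Adj x y := by
      simp only [mem_filter, mem_univ, true_and]
      exact hxy
    rw [← heq] at hy
    simp only [mem_filter, mem_univ, true_and] at hy
    exact hy

end Run7.h574.DS
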